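import Pool.Agent.D0H39.NG.Bas

set_option autoImplicit false

open Set Filter Topology Metric Function
open scoped ContDiff RealInnerProductSpace NNReal

noncomputable section

namespace Pool.Agent.D0H13.NG

open Pool.Agent.D0H39.NG

section

variable {V W : Type} [NormedAddCommGroup V] [NormedSpace ℝ V] [NormedAddCommGroup W]
  [NormedSpace ℝ W]

theorem hasFDerivAt_slice {g : ℝ → V → W} (hg : ContDiff ℝ ∞ (fun y : ℝ × V => g y.1 y.2))
    (t : ℝ) (z : V) : HasFDerivAt (g t)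
      ((fderiv ℝ (fun y : ℝ × V => g y.1 y.2) (t, z)).comp (ContinuousLinearMap.inr ℝ ℝ V)) z := by
  have h1 : HasFDerivAt (fun y : ℝ × V => g y.1 y.2)
      (fderiv ℝ (fun y : ℝ × V => g y.1 y.2) (t, z)) (t, z) :=
    (hg.differentiable (by simp) _).hasFDerivAt
  exact h1.comp z (hasFDerivAt_prodMk_right t z)

theorem fderiv_slice {g : ℝ → V → W} (hg : ContDiff ℝ ∞ (fun y : ℝ × V => g y.1 y.2))
    (t : ℝ) (z a : V) : fderiv ℝ (g t) z a =
      fderiv ℝ (fun y : ℝ × V => g y.1 y.2) (t, z) (0, a) := by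
  rw [(hasFDerivAt_slice hg t z).fderiv]
  rfl

theorem deriv_slice {g : ℝ → V → W} (hg : ContDiff ℝ ∞ (fun y : ℝ × V => g y.1 y.2))
    {t : ℝ} {z : V} {w : W} (h : HasDerivAt (fun t => g t z) w t) : w =
      fderiv ℝ (fun y : ℝ × V => g y.1 y.2) (t, z) (1, 0) := by
  have h1 : HasFDerivAt (fun y : ℝ × V => g y.1 y.2)
      (fderiv ℝ (fun y : ℝ × V => g y.1 y.2) (t, z)) (t, z) :=
    (hg.differentiable (by simp) _).hasFDerivAt
  have h2 : HasFDerivAt (fun t => g t z)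
      ((fderiv ℝ (fun y : ℝ × V => g y.1 y.2) (t, z)).comp (ContinuousLinearMap.inl ℝ ℝ V)) t :=
    HasFDerivAt.comp (g := fun y : ℝ × V => g y.1 y.2) (f := fun t : ℝ => (t, z)) t h1
      (hasFDerivAt_prodMk_left t z)
  have h3 := h2.hasDerivAt
  rw [h.unique h3]
  rfl

/-- mixed partial derivatives -/
theorem hasDerivAt_fderiv {g g' : ℝ → V → W} (hg : ContDiff ℝ ∞ (fun y : ℝ × V => g y.1 y.2))
    (h : ∀ t z, HasDerivAt (fun t => g t z) (g' t z) t) (t : ℝ) (z a : V) :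
    HasDerivAt (fun t => fderiv ℝ (g t) z a) (fderiv ℝ (g' t) z a) t := by
  set G : ℝ × V → W := fun y => g y.1 y.2 with hG
  have hG1 : ContDiff ℝ ∞ (fderiv ℝ G) := hg.fderiv_right (by simp)
  have e1 : (fun t => fderiv ℝ (g t) z a) = fun t => fderiv ℝ G (t, z) (0, a) := by
    funext t
    exact fderiv_slice hg t z a
  have e2 : g' t = fun z => fderiv ℝ G (t, z) (1, 0) := by
    funext z
    exact deriv_slice hg (h t z)
  have h1 : HasFDerivAt (fderiv ℝ G) (fderiv ℝ (fderiv ℝ G) (t, z)) (t, z) :=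
    (hG1.differentiable (by simp) _).hasFDerivAt
  have h2 : HasDerivAt (fun t => fderiv ℝ G (t, z)) (fderiv ℝ (fderiv ℝ G) (t, z) (1, 0)) t :=
    (HasFDerivAt.comp (g := fderiv ℝ G) (f := fun t : ℝ => (t, z)) t h1
      (hasFDerivAt_prodMk_left t z)).hasDerivAt
  have h3 : HasFDerivAt (fun z => fderiv ℝ G (t, z))
      ((fderiv ℝ (fderiv ℝ G) (t, z)).comp (ContinuousLinearMap.inr ℝ ℝ V)) z :=
    h1.comp z (hasFDerivAt_prodMk_right t z)
  have h4 : fderiv ℝ (fun z => fderiv ℝ G (t, z) (1, 0)) z a =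
      fderiv ℝ (fderiv ℝ G) (t, z) (0, a) (1, 0) := by
    have h5 := h3.clm_apply (hasFDerivAt_const ((1 : ℝ), (0 : V)) z)
    rw [h5.fderiv]
    simp
  have hsym : IsSymmSndFDerivAt ℝ G (t, z) :=
    ContDiffAt.isSymmSndFDerivAt hg.contDiffAt (by
      rw [minSmoothness_of_isRCLikeNormedField]
      exact ENat.LEInfty.out)
  rw [e1, e2, h4, hsym (0, a) (1, 0)]
  have h6 := h2.clm_apply (hasDerivAt_const t ((0 : ℝ), a))
  simpa using h6

end

/-- **NG10** -/
theorem t_LAM : S_LAM := by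
  intro m N H X φ h hh t z hz a ha
  have hφs : ∀ t, ContDiff ℝ ∞ (φ t) := fun t => by
    have h1 : ContDiff ℝ ∞ (fun z : E m × E m => (t, z)) := by fun_prop
    exact hh.flow.smooth.comp h1
  -- the derivative of the flow
  have hA : ∀ t, HasDerivAt (fun t => fderiv ℝ (φ t) z a)
      (fderiv ℝ X (φ t z) (fderiv ℝ (φ t) z a)) t := by
    intro t
    have h1 := hasDerivAt_fderiv (g := φ) (g' := fun t z => X (φ t z)) hh.flow.smooth
      (fun t z => hh.flow.deriv z t) t z a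
    have h2 : fderiv ℝ (fun z => X (φ t z)) z = (fderiv ℝ X (φ t z)).comp (fderiv ℝ (φ t) z) :=
      fderiv_comp z (hh.hX.differentiable (by simp) _) ((hφs t).differentiable (by simp) _)
    rw [h2] at h1
    exact h1
  -- the derivative of the action
  have hB : ∀ t, HasDerivAt (fun t => fderiv ℝ (h t) z a)
      (⟪(φ t z).2, (fderiv ℝ X (φ t z) (fderiv ℝ (φ t) z a)).1⟫ +
        ⟪(fderiv ℝ (φ t) z a).2, (X (φ t z)).1⟫ -
        fderiv ℝ H (φ t z) (fderiv ℝ (φ t) z a)) t := by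
    intro t
    have h1 := hasDerivAt_fderiv (g := h) (g' := fun t z => ⟪(φ t z).2, (X (φ t z)).1⟫ - H (φ t z))
      hh.hh (fun t z => hh.hd z t) t z a
    have d1 : HasFDerivAt (φ t) (fderiv ℝ (φ t) z) z :=
      ((hφs t).differentiable (by simp) _).hasFDerivAt
    have d2 : HasFDerivAt (fun z => X (φ t z)) ((fderiv ℝ X (φ t z)).comp (fderiv ℝ (φ t) z)) z :=
      (hh.hX.differentiable (by simp) (φ t z)).hasFDerivAt.comp z d1
    have d3 : HasFDerivAt (fun z => H (φ t z)) ((fderiv ℝ H (φ t z)).comp (fderiv ℝ (φ t) z)) z :=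
      (hh.hH.differentiable (by simp) (φ t z)).hasFDerivAt.comp z d1
    have d4 := (d1.snd.inner ℝ d2.fst).sub d3
    have e := d4.fderiv
    have e' : fderiv ℝ (fun z => ⟪(φ t z).2, (X (φ t z)).1⟫ - H (φ t z)) z a =
        ⟪(φ t z).2, (fderiv ℝ X (φ t z) (fderiv ℝ (φ t) z a)).1⟫ +
        ⟪(fderiv ℝ (φ t) z a).2, (X (φ t z)).1⟫ -
        fderiv ℝ H (φ t z) (fderiv ℝ (φ t) z a) := by
      have e1 := congrFun (congrArg DFunLike.coe e) a
      refine Eq.trans ?_ (e1.trans ?_)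
      · rfl
      · simp [fderivInnerCLM_apply]
    rw [e'] at h1
    exact h1
  -- the function which is constant
  have hF : ∀ t, HasDerivAt (fun t => ⟪(φ t z).2, (fderiv ℝ (φ t) z a).1⟫ - fderiv ℝ (h t) z a)
      0 t := by
    intro t
    have h1 : HasDerivAt (fun t => (φ t z).2) (X (φ t z)).2 t := (hh.flow.deriv z t).snd
    have h2 := ((h1.inner ℝ (hA t).fst).sub (hB t))
    have h3 : IsTan (CT N) (φ t z) (fderiv ℝ (φ t) z a) := ha.image' (hφs t) (hh.inv t)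
    have h4 := hh.ham (φ t z) (hh.inv t z hz) _ h3
    unfold om at h4
    have e : ⟪(φ t z).2, (fderiv ℝ X (φ t z) (fderiv ℝ (φ t) z a)).1⟫ +
        ⟪(X (φ t z)).2, (fderiv ℝ (φ t) z a).1⟫ -
        (⟪(φ t z).2, (fderiv ℝ X (φ t z) (fderiv ℝ (φ t) z a)).1⟫ +
        ⟪(fderiv ℝ (φ t) z a).2, (X (φ t z)).1⟫ -
        fderiv ℝ H (φ t z) (fderiv ℝ (φ t) z a)) = 0 := by
      linarith
    rw [← e]
    exact h2
  have hconst : ∀ t, ⟪(φ t z).2, (fderiv ℝ (φ t) z a).1⟫ - fderiv ℝ (h t) z a =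
      ⟪(φ 0 z).2, (fderiv ℝ (φ 0) z a).1⟫ - fderiv ℝ (h 0) z a := fun t =>
    is_const_of_deriv_eq_zero (fun t => (hF t).differentiableAt) (fun t => (hF t).deriv) t 0
  have e0 : φ 0 = id := funext hh.flow.zero
  have e1 : h 0 = fun _ => 0 := funext hh.h0
  have h5 := hconst t
  rw [e0, e1] at h5
  simp only [id, fderiv_id, fderiv_fun_const, Pi.zero_apply, zero_apply,
    sub_zero, ContinuousLinearMap.id_apply] at h5
  linarith

end Pool.Agent.D0H13.NG
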