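import Pool.Agent.D0H39.NG.Bas

set_option autoImplicit false

open Set Filter Topology Metric Function
open scoped ContDiff RealInnerProductSpace NNReal

noncomputable section

namespace Pool.Agent.D0H13.NG

open Pool.Agent.D0H39.NG

/-- a solution of `γ' = Y(γ)`, where `Y` is tangent to the closed set `S`, which starts in `S`
stays in `S` -/
theorem nagumo {V : Type} [NormedAddCommGroup V] [NormedSpace ℝ V] [FiniteDimensional ℝ V]
    {S : Set V} {Y : V → V} {L : ℝ≥0} (hS : IsClosed S) (hL : LipschitzWith L Y)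
    (hY : ∀ z ∈ S, IsTan S z (Y z)) {γ : ℝ → V} (hγ : ∀ t, HasDerivAt γ (Y (γ t)) t)
    (h0 : γ 0 ∈ S) {b : ℝ} (hb : 0 ≤ b) : γ b ∈ S := by
  have hne : S.Nonempty := ⟨_, h0⟩
  have hcont : Continuous γ := continuous_iff_continuousAt.2 fun t => (hγ t).continuousAt
  have hproper : ProperSpace V := FiniteDimensional.proper ℝ V
  have key : ∀ t : ℝ, ∀ r, (L : ℝ) * infDist (γ t) S < r →
      ∃ᶠ u in 𝓝[>] t, (u - t)⁻¹ * (infDist (γ u) S - infDist (γ t) S) < r := by
    intro t r hr
    obtain ⟨y, hyS, hy⟩ := hS.exists_infDist_eq_dist hne (γ t)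
    obtain ⟨c, hc1, hc2, hc3, hc4⟩ := hY y hyS
    have hcd : HasDerivAt c (Y y) 0 := by
      rw [← hc4]
      exact (hc1.differentiableAt (by simp)).hasDerivAt
    -- the curve from time `t` on
    have hcd' : HasDerivAt (fun u => c (u - t)) (Y y) t := by
      have h1 : HasDerivAt c (Y y) (t - t) := by rw [sub_self]; exact hcd
      exact h1.comp_sub_const t t
    have hdiff : HasDerivAt (fun u => γ u - c (u - t)) (Y (γ t) - Y y) t := (hγ t).sub hcd'
    have hnorm : ‖Y (γ t) - Y y‖ < r := by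
      refine lt_of_le_of_lt ?_ hr
      rw [hy, ← dist_eq_norm]
      exact hL.dist_le_mul _ _
    -- slope bound
    have h2 := hasDerivAt_iff_tendsto_slope.1 hdiff
    have h3 : Tendsto (fun u => ‖slope (fun u => γ u - c (u - t)) t u‖) (𝓝[≠] t)
        (𝓝 ‖Y (γ t) - Y y‖) := h2.norm
    have h4 : ∀ᶠ u in 𝓝[>] t, ‖slope (fun u => γ u - c (u - t)) t u‖ < r :=
      (h3.mono_left (nhdsWithin_mono t fun u (hu : t < u) => ne_of_gt hu)).eventually
        (gt_mem_nhds hnorm)
    have h5 : ∀ᶠ u in 𝓝[>] t, c (u - t) ∈ S := by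
      have h6 : Tendsto (fun u : ℝ => u - t) (𝓝 t) (𝓝 0) := by
        have : Continuous (fun u : ℝ => u - t) := by fun_prop
        simpa using this.tendsto t
      exact (h6.eventually hc2).filter_mono nhdsWithin_le_nhds
    have h7 : ∀ᶠ u in 𝓝[>] t, (u - t)⁻¹ * (infDist (γ u) S - infDist (γ t) S) < r := by
      filter_upwards [h4, h5, self_mem_nhdsWithin] with u hu1 hu2 hu3
      have hpos : 0 < u - t := sub_pos.2 hu3
      have h8 : infDist (γ u) S ≤ ‖γ u - c (u - t)‖ := by
        rw [← dist_eq_norm]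
        exact infDist_le_dist_of_mem hu2
      have h9 : infDist (γ t) S = ‖γ t - c (t - t)‖ := by
        rw [sub_self, hc3, ← dist_eq_norm, hy]
      rw [slope_def_module, norm_smul, norm_inv, Real.norm_of_nonneg hpos.le] at hu1
      refine lt_of_le_of_lt ?_ hu1
      refine mul_le_mul_of_nonneg_left ?_ (inv_nonneg.2 hpos.le)
      rw [h9]
      exact (sub_le_sub_right h8 _).trans (norm_sub_norm_le _ _)
    exact h7.frequently
  have h1 := le_gronwallBound_of_liminf_deriv_right_le (f := fun t => infDist (γ t) S)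
    (f' := fun t => L * infDist (γ t) S) (δ := 0) (K := L) (ε := 0) (a := 0) (b := b)
    ((continuous_infDist_pt S).comp hcont).continuousOn
    (fun t _ r hr => key t r hr) (by rw [infDist_zero_of_mem h0])
    (fun t _ => by rw [add_zero]) b ⟨hb, le_rfl⟩
  rw [gronwallBound_ε0_δ0] at h1
  rw [hS.mem_iff_infDist_zero hne]
  exact le_antisymm h1 infDist_nonneg

/-- **NG9** -/
theorem t_NAG : S_NAG := by
  intro V _ _ _ S X φ hS hX hXc hφ hT t z hz
  obtain ⟨L, hL⟩ := hX.lipschitzWith_of_hasCompactSupport hXc (by simp)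
  rcases le_total 0 t with ht | ht
  · exact nagumo hS hL hT (γ := fun t => φ t z) (fun t => hφ.deriv z t)
      (by rw [hφ.zero]; exact hz) ht
  · have h1 := nagumo (Y := fun z => - X z) hS hL.neg (fun z hz => by
      have := (hT z hz).smul (-1)
      rwa [neg_one_smul] at this) (γ := fun t => φ (-t) z) (fun t => by
        have h2 := hφ.deriv z (-t)
        have h3 := h2.scomp t (hasDerivAt_neg t)
        rwa [neg_one_smul] at h3)
      (by rw [neg_zero, hφ.zero]; exact hz) (neg_nonneg.2 ht)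
    rwa [neg_neg] at h1

end Pool.Agent.D0H13.NG
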